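import Pool.Agent.helper80.SV.Spec

set_option autoImplicit false

namespace Pool.Agent.SV

open MvPolynomial Module

theorem FIN_choose (a b : ℕ) (ha : 1 ≤ a) : b + 1 ≤ (a + b).choose a := by
  induction b with
  | zero => rw [add_zero, Nat.choose_self]
  | succ b ih =>
    obtain ⟨a, rfl⟩ := Nat.exists_eq_add_of_le ha
    have h1 : (1 + a + (b + 1)).choose (1 + a) =
        (1 + a + b).choose a + (1 + a + b).choose (1 + a) := by
      have h2 : 1 + a + (b + 1) = (1 + a + b) + 1 := by ring
      have h3 : 1 + a = a + 1 := by ring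
      rw [h2]
      conv_lhs => rw [h3]
      rw [Nat.choose_succ_succ]
      conv_rhs => rw [h3]
    have h4 : 0 < (1 + a + b).choose a := Nat.choose_pos (by omega)
    omega

theorem FIN_hj {k : ℕ} (n d : Fin k → ℕ) (hn : ∀ i, 1 ≤ n i) (hd : ∀ i, 1 ≤ d i) (j l : Fin k)
    (hjl : l ≠ j) : d l + 1 ≤ hj n d j := by
  unfold hj
  have h1 : 0 < (n j + d j - 2).choose (n j - 1) := by
    apply Nat.choose_pos
    have := hn j
    have := hd j
    omega
  have h2 : (n l + d l).choose (n l) ≤ ∏ i ∈ Finset.univ.erase j, (n i + d i).choose (n i) := by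
    refine Finset.single_le_prod' (f := fun i => (n i + d i).choose (n i)) ?_ ?_
    · intro i _
      exact Nat.choose_pos (by omega)
    · exact Finset.mem_erase.mpr ⟨hjl, Finset.mem_univ _⟩
  have h3 := FIN_choose (n l) (d l) (hn l)
  calc d l + 1 ≤ 1 * ∏ i ∈ Finset.univ.erase j, (n i + d i).choose (n i) := by
        rw [one_mul]; exact h3.trans h2
    _ ≤ _ := Nat.mul_le_mul_right _ h1

theorem FIN_hl {k : ℕ} (n d : Fin k → ℕ) (hd : ∀ i, 1 ≤ d i) (l : Fin k)
    (hnl : 2 ≤ n l) : d l ≤ hj n d l := by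
  unfold hj
  have h1 : 0 < ∏ i ∈ Finset.univ.erase l, (n i + d i).choose (n i) := by
    apply Finset.prod_pos
    intro i _
    exact Nat.choose_pos (by omega)
  have h2 := FIN_choose (n l - 1) (d l - 1) (by omega)
  have h3 : n l - 1 + (d l - 1) = n l + d l - 2 := by
    have := hd l
    omega
  rw [h3] at h2
  have h4 := hd l
  calc d l ≤ (n l + d l - 2).choose (n l - 1) * 1 := by omega
    _ ≤ _ := Nat.mul_le_mul_left _ h1

/-- FINITENESS. -/
theorem FIN (hT : THR_stmt) : FIN_stmt := by
  intro k n hk hn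
  set N := ∑ i, n i with hN
  refine (Set.finite_Iic (fun _ : Fin k => 3 * (N + 1) ^ 3 + 1)).subset ?_
  rintro d ⟨hd, hS, hf1, hf2⟩
  rw [Set.mem_Iic, Pi.le_def]
  by_contra hcon
  push Not at hcon
  obtain ⟨l, hl⟩ := hcon
  have hl' : 3 * (N + 1) ^ 3 + 1 < d l := hl
  have hpos : 1 ≤ (N + 1) ^ 3 := Nat.one_le_pow _ _ (by omega)
  have key := fun j => hT k n d hk hn hd j
  have c1 : ∀ j, j ≠ l → d j < 3 := by
    intro j hjl
    by_contra h3
    push Not at h3
    refine key j (Or.inl ⟨h3, ?_⟩) hS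
    have h4 := FIN_hj n d hn hd j l hjl.symm
    rw [← hN]
    omega
  have c2 : ∀ j, j ≠ l → d j ≠ 2 := by
    intro j hjl h2
    have hsum : n j + ∑ i ∈ Finset.univ.erase j, n i = N := by
      rw [hN, Finset.add_sum_erase _ _ (Finset.mem_univ j)]
    have hcard : k - 1 ≤ ∑ i ∈ Finset.univ.erase j, n i := by
      have h5 : (Finset.univ.erase j).card = k - 1 := by
        rw [Finset.card_erase_of_mem (Finset.mem_univ j), Finset.card_univ, Fintype.card_fin]
      rw [← h5, Finset.card_eq_sum_ones]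
      exact Finset.sum_le_sum (fun i _ => hn i)
    have hnl : n l ≤ ∑ i ∈ Finset.univ.erase j, n i :=
      Finset.single_le_sum (f := n) (fun i _ => Nat.zero_le _)
        (Finset.mem_erase.mpr ⟨hjl.symm, Finset.mem_univ _⟩)
    by_cases hx : 2 ≤ N - n j
    · refine key j (Or.inr ⟨h2, ?_⟩) hS
      rw [← hN]
      have h4 := FIN_hj n d hn hd j l hjl.symm
      have h5 : N - n j + 1 ≤ 3 * (N - n j - 1) := by omega
      calc (N - n j + 1) * (N + 1) ^ 3 ≤ 3 * (N - n j - 1) * (N + 1) ^ 3 :=
            Nat.mul_le_mul_right _ h5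
        _ = (N - n j - 1) * (3 * (N + 1) ^ 3) := by ring
        _ ≤ (N - n j - 1) * hj n d j := Nat.mul_le_mul_left _ (by omega)
    · have hk2 : k = 2 := by omega
      have hn1 : n l = 1 := by
        have := hn l
        omega
      subst hk2
      refine hf2 ⟨rfl, l, hn1, ?_⟩
      intro i hi
      have hij : i = j := by
        apply Fin.ext
        have h6 := i.2
        have h7 := j.2
        have h8 := l.2
        have h9 : i.val ≠ l.val := fun h => hi (Fin.ext h)
        have h10 : j.val ≠ l.val := fun h => hjl (Fin.ext h)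
        omega
      rw [hij, h2]
  have c3 : ∀ i, i ≠ l → d i = 1 := by
    intro i hi
    have h1 := c1 i hi
    have h2 := c2 i hi
    have h3 := hd i
    omega
  by_cases hnl : n l = 1
  · exact hf1 ⟨l, hnl, c3⟩
  · have h2 : 2 ≤ n l := by
      have := hn l
      omega
    refine key l (Or.inl ⟨by omega, ?_⟩) hS
    have h4 := FIN_hl n d hd l h2
    rw [← hN]
    omega

end Pool.Agent.SV
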